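import Mathlib

/-! ET0L systems and the number of letters which a table rewrites. -/

set_option autoImplicit false

namespace Pool.Agent.TH269.ET

/-- `Rew σ x y`: the word `y` is obtained from `x` by replacing every occurrence of a letter `c`
by some word of `σ c`, simultaneously and independently. -/
inductive Rew {A B : Type} (σ : A → Set (List B)) : List A → List B → Prop
  | nil : Rew σ [] []
  | cons {c : A} {u : List B} {x : List A} {y : List B} :
      u ∈ σ c → Rew σ x y → Rew σ (c :: x) (u ++ y)

/-- An ET0L system with terminal alphabet `T`: a finite alphabet `V` containing a copy `tm` of `T`,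
finitely many tables (finite substitutions of nonempty finite sets of words for letters), a
nonempty axiom. -/
structure Sys (T : Type) where
  V : Type
  J : Type
  finV : Finite V
  finJ : Finite J
  neJ : Nonempty J
  tab : J → V → Set (List V)
  tab_fin : ∀ j c, (tab j c).Finite
  tab_ne : ∀ j c, (tab j c).Nonempty
  ax : List V
  ax_ne : ax ≠ []
  tm : T → V
  tm_inj : Function.Injective tm

attribute [instance] Sys.finV Sys.finJ

variable {T : Type}

/-- One derivation step. -/
def Step (G : Sys T) (x y : List G.V) : Prop := ∃ j, Rew (G.tab j) x y

/-- The generated language. -/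
def lang (G : Sys T) : Set (List T) :=
  {w | Relation.ReflTransGen (Step G) G.ax (w.map G.tm)}

/-- In every table at most `k` letters are not rewritten to themselves only. -/
def Restricted (k : ℕ) (G : Sys T) : Prop :=
  ∀ j, Set.encard {c | G.tab j c ≠ {[c]}} ≤ k

/-- The languages over `T` of the `k`-restricted ET0L systems. -/
def Fam (T : Type) (k : ℕ) : Set (Set (List T)) :=
  {L | ∃ G : Sys T, Restricted k G ∧ L = lang G}

end Pool.Agent.TH269.ET
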