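import Mathlib
import Pool.Agent.TH269.ET.Defs

/-! Every ET0L language is generated by a 3-restricted ET0L system. -/

set_option autoImplicit false

namespace Pool.Agent.TH269.ET

section rew

variable {A B C : Type}

theorem Rew.append {σ : A → Set (List B)} {x x' : List A} {y y' : List B} (h : Rew σ x y)
    (h' : Rew σ x' y') : Rew σ (x ++ x') (y ++ y') := by
  induction h with
  | nil => simpa using h'
  | cons hu _ ih =>
    rw [List.cons_append, List.append_assoc]
    exact Rew.cons hu ih

theorem Rew.nil_inv {σ : A → Set (List B)} {y : List B} (h : Rew σ [] y) : y = [] := by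
  cases h; rfl

theorem Rew.cons_inv {σ : A → Set (List B)} {c : A} {x : List A} {z : List B}
    (h : Rew σ (c :: x) z) : ∃ u y, u ∈ σ c ∧ Rew σ x y ∧ z = u ++ y := by
  cases h with
  | cons hu hy => exact ⟨_, _, hu, hy, rfl⟩

theorem Rew.split {σ : A → Set (List B)} {x x' : List A} {z : List B}
    (h : Rew σ (x ++ x') z) : ∃ y y', Rew σ x y ∧ Rew σ x' y' ∧ z = y ++ y' := by
  induction x generalizing z with
  | nil => exact ⟨[], z, Rew.nil, by simpa using h, rfl⟩
  | cons c x ih =>
    rw [List.cons_append] at h
    obtain ⟨u, y, hu, hy, rfl⟩ := h.cons_inv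
    obtain ⟨y1, y2, h1, h2, rfl⟩ := ih hy
    exact ⟨u ++ y1, y2, Rew.cons hu h1, h2, by rw [List.append_assoc]⟩

theorem Rew.single {σ : A → Set (List B)} {c : A} {z : List B} (h : Rew σ [c] z) : z ∈ σ c := by
  obtain ⟨u, y, hu, hy, rfl⟩ := h.cons_inv
  rw [hy.nil_inv, List.append_nil]
  exact hu

theorem Rew.one {σ : A → Set (List B)} {c : A} {z : List B} (h : z ∈ σ c) : Rew σ [c] z := by
  have := Rew.cons h (Rew.nil (σ := σ))
  simpa using this

/-- Deterministic letters. -/
theorem Rew.det {σ : A → Set (List B)} {φ : A → List B} {x : List A}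
    (hφ : ∀ c ∈ x, σ c = {φ c}) {y : List B} : Rew σ x y ↔ y = x.flatMap φ := by
  induction x generalizing y with
  | nil =>
    constructor
    · intro h; simpa using h.nil_inv
    · intro h; rw [h]; simpa using Rew.nil
  | cons c x ih =>
    have hc : σ c = {φ c} := hφ c (List.mem_cons_self)
    have hx : ∀ c ∈ x, σ c = {φ c} := fun c' h => hφ c' (List.mem_cons_of_mem _ h)
    constructor
    · intro h
      obtain ⟨u, y, hu, hy, rfl⟩ := h.cons_inv
      rw [hc, Set.mem_singleton_iff] at hu
      rw [List.flatMap_cons, hu, (ih hx).1 hy]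
    · rintro rfl
      rw [List.flatMap_cons]
      exact Rew.cons (by rw [hc]; exact Set.mem_singleton _) ((ih hx).2 rfl)

theorem Rew.flatMap {D : Type} {σ : A → Set (List B)} {F : D → List A} {F' : D → List B}
    {L : List D} (h : ∀ x ∈ L, Rew σ (F x) (F' x)) : Rew σ (L.flatMap F) (L.flatMap F') := by
  induction L with
  | nil => simpa using Rew.nil
  | cons a L ih =>
    rw [List.flatMap_cons, List.flatMap_cons]
    exact (h a List.mem_cons_self).append (ih fun x hx => h x (List.mem_cons_of_mem _ hx))

/-- Choices. -/
theorem Rew.pairs {σ : A → Set (List B)} {x : List A} {y : List B} (h : Rew σ x y) :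
    ∃ L : List (A × List B), (∀ p ∈ L, p.2 ∈ σ p.1) ∧ x = L.flatMap (fun p => [p.1]) ∧
      y = L.flatMap (fun p => p.2) := by
  induction h with
  | nil => exact ⟨[], by simp, rfl, rfl⟩
  | @cons c u x y hu _ ih =>
    obtain ⟨L, h1, h2, h3⟩ := ih
    refine ⟨(c, u) :: L, ?_, ?_, ?_⟩
    · intro p hp
      rcases List.mem_cons.1 hp with rfl | hp
      · exact hu
      · exact h1 p hp
    · rw [List.flatMap_cons, ← h2]; rfl
    · rw [List.flatMap_cons, ← h3]

/-- Composition. -/
theorem Rew.comp {σ : A → Set (List B)} {τ : B → Set (List C)} {ρ : A → Set (List C)}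
    {x : List A} {y : List B} {z : List C} (h : Rew σ x y) (h' : Rew τ y z)
    (hρ : ∀ c ∈ x, ∀ w ∈ σ c, ∀ w', Rew τ w w' → w' ∈ ρ c) : Rew ρ x z := by
  induction h generalizing z with
  | nil => rw [h'.nil_inv]; exact Rew.nil
  | @cons c u x y hu _ ih =>
    obtain ⟨y1, y2, h1, h2, rfl⟩ := h'.split
    exact Rew.cons (hρ c List.mem_cons_self u hu y1 h1)
      (ih h2 fun c hc => hρ c (List.mem_cons_of_mem _ hc))

end rew

/-- The control states. -/
inductive St (m : ℕ) (J : Type)
  | rd : St m J
  | p : J → Fin (m + 1) → St m J
  | u : Fin (m + 1) → St m J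
  | z : Fin (m + 1) → St m J

/-- The new letters: unprocessed, processed and final copies of the old ones, letters for the
control states, and a dead letter. -/
inductive Sym (V S : Type)
  | a : V → Sym V S
  | b : V → Sym V S
  | f : V → Sym V S
  | s : S → Sym V S
  | dead : Sym V S

/-- The new tables. -/
inductive Tr (m : ℕ) (J : Type)
  | start : J → Tr m J
  | pr : J → Fin m → Tr m J
  | sw : J → Tr m J
  | un : Fin m → Tr m J
  | back : Tr m J
  | fin0 : Tr m J
  | zz : Fin m → Tr m J
  | er : St m J → Tr m J

instance {m : ℕ} {J : Type} [Finite J] : Finite (St m J) :=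
  Finite.of_injective (β := Option (J × Fin (m + 1)) ⊕ (Fin (m + 1) ⊕ Fin (m + 1)))
    (fun q => match q with
      | .rd => Sum.inl none
      | .p j i => Sum.inl (some (j, i))
      | .u i => Sum.inr (Sum.inl i)
      | .z i => Sum.inr (Sum.inr i))
    (by intro x y h; cases x <;> cases y <;> simp_all)

instance {V S : Type} [Finite V] [Finite S] : Finite (Sym V S) :=
  Finite.of_injective (β := (V ⊕ V) ⊕ (V ⊕ Option S))
    (fun q => match q with
      | .a c => Sum.inl (Sum.inl c)
      | .b c => Sum.inl (Sum.inr c)
      | .f c => Sum.inr (Sum.inl c)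
      | .s q => Sum.inr (Sum.inr (some q))
      | .dead => Sum.inr (Sum.inr none))
    (by intro x y h; cases x <;> cases y <;> simp_all)

instance {m : ℕ} {J : Type} [Finite J] : Finite (Tr m J) :=
  Finite.of_injective (β := ((J ⊕ (J × Fin m)) ⊕ (J ⊕ Fin m)) ⊕ (Bool ⊕ (Fin m ⊕ St m J)))
    (fun q => match q with
      | .start j => Sum.inl (Sum.inl (Sum.inl j))
      | .pr j i => Sum.inl (Sum.inl (Sum.inr (j, i)))
      | .sw j => Sum.inl (Sum.inr (Sum.inl j))
      | .un i => Sum.inl (Sum.inr (Sum.inr i))
      | .back => Sum.inr (Sum.inl true)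
      | .fin0 => Sum.inr (Sum.inl false)
      | .zz i => Sum.inr (Sum.inr (Sum.inl i))
      | .er q => Sum.inr (Sum.inr (Sum.inr q)))
    (by intro x y h; cases x <;> cases y <;> simp_all)

section build

variable {m : ℕ} {J V : Type}

/-- The state which a table requires. -/
def src : Tr m J → St m J
  | .start _ => .rd
  | .pr j i => .p j i.castSucc
  | .sw j => .p j (Fin.last m)
  | .un i => .u i.castSucc
  | .back => .u (Fin.last m)
  | .fin0 => .rd
  | .zz i => .z i.castSucc
  | .er _ => .z (Fin.last m)

/-- The state to which a table leads. -/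
def dst : Tr m J → St m J
  | .start j => .p j 0
  | .pr j i => .p j i.succ
  | .sw _ => .u 0
  | .un i => .u i.succ
  | .back => .rd
  | .fin0 => .z 0
  | .zz i => .z i.succ
  | .er q => q

/-- The word for the letter of the state to which a table leads. -/
def out : Tr m J → List (Sym V (St m J))
  | .er _ => []
  | t => [.s (src t)]

open Classical in
/-- The action on unprocessed letters. -/
noncomputable def actA (e : V ≃ Fin m) (tab : J → V → Set (List V)) (R : Set V) :
    Tr m J → V → Set (List (Sym V (St m J)))
  | .pr j i, c => if e c = i then (List.map .b) '' tab j c else {[.a c]}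
  | .zz i, c => if e c = i then (if c ∈ R then {[.f c]} else {[.dead]}) else {[.a c]}
  | _, c => {[.a c]}

/-- The action on processed letters. -/
def actB (e : V ≃ Fin m) : Tr m J → V → Set (List (Sym V (St m J)))
  | .un i, c => if e c = i then {[.a c]} else {[.b c]}
  | _, c => {[.b c]}

open Classical in
/-- The new tables. -/
noncomputable def tabN (e : V ≃ Fin m) (tab : J → V → Set (List V)) (R : Set V) (t : Tr m J) :
    Sym V (St m J) → Set (List (Sym V (St m J)))
  | .a c => actA e tab R t c
  | .b c => actB e t c
  | .f c => {[.f c]}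
  | .s q => if q = src t then {[.dead]} else if q = dst t then {out t} else {[.s q]}
  | .dead => {[.dead]}

end build

section sys

variable {T : Type}

/-- A list of all states except `rd`. -/
theorem exists_ctrl {S : Type} [Finite S] (q : S) : ∃ c : List S, ∀ q', q' ∈ c ↔ q' ≠ q := by
  classical
  have := Fintype.ofFinite S
  exact ⟨(Finset.univ.erase q).toList, fun q' => by simp⟩

/-- The new system. -/
noncomputable def new (G : Sys T) (m : ℕ) (e : G.V ≃ Fin m) : Sys T :=
  { V := Sym G.V (St m G.J)
    J := Tr m G.J
    finV := inferInstance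
    finJ := inferInstance
    neJ := ⟨.back⟩
    tab := tabN e G.tab (Set.range G.tm)
    tab_fin := by
      intro t c
      cases c with
      | a c =>
        cases t <;> simp only [tabN, actA] <;> try exact Set.finite_singleton _
        · split_ifs
          · exact (G.tab_fin _ _).image _
          · exact Set.finite_singleton _
        · split_ifs <;> exact Set.finite_singleton _
      | b c =>
        cases t <;> simp only [tabN, actB] <;> try exact Set.finite_singleton _
        split_ifs <;> exact Set.finite_singleton _
      | f c => exact Set.finite_singleton _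
      | s q => simp only [tabN]; split_ifs <;> exact Set.finite_singleton _
      | dead => exact Set.finite_singleton _
    tab_ne := by
      intro t c
      cases c with
      | a c =>
        cases t <;> simp only [tabN, actA] <;> try exact Set.singleton_nonempty _
        · split_ifs
          · exact (G.tab_ne _ _).image _
          · exact Set.singleton_nonempty _
        · split_ifs <;> exact Set.singleton_nonempty _
      | b c =>
        cases t <;> simp only [tabN, actB] <;> try exact Set.singleton_nonempty _
        split_ifs <;> exact Set.singleton_nonempty _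
      | f c => exact Set.singleton_nonempty _
      | s q => simp only [tabN]; split_ifs <;> exact Set.singleton_nonempty _
      | dead => exact Set.singleton_nonempty _
    ax := (exists_ctrl (S := St m G.J) .rd).choose.map .s ++ G.ax.map .a
    ax_ne := by
      intro h
      have := (List.append_eq_nil_iff.1 h).2
      rw [List.map_eq_nil_iff] at this
      exact G.ax_ne this
    tm := fun t => .f (G.tm t)
    tm_inj := fun x y h => G.tm_inj (by simpa using h) }

end sys

end Pool.Agent.TH269.ET
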