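import Mathlib
import Pool.Agent.TH269.ET.Main

/-! The simulation: soundness and completeness. -/

set_option autoImplicit false

namespace Pool.Agent.TH269.ET

variable {T : Type} {G : Sys T} {m : ℕ} {e : G.V ≃ Fin m}

/-- A letter handled by a table. -/
def lt (e : G.V ≃ Fin m) : Tr m G.J → Sym G.V (St m G.J)
  | .pr _ i => .a (e.symm i)
  | .un i => .b (e.symm i)
  | .zz i => .a (e.symm i)
  | _ => .dead

theorem restricted3 : Restricted 3 (new G m e) := by
  intro t
  have hsub : {c : Sym G.V (St m G.J) | tabN e G.tab (Set.range G.tm) t c ≠ {[c]}} ⊆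
      {Sym.s (src t), Sym.s (dst t), lt e t} := by
    intro c hc
    change _ ≠ _ at hc
    simp only [Set.mem_insert_iff, Set.mem_singleton_iff]
    cases c with
    | a c =>
      cases t <;> simp only [tabN, actA, ne_eq, not_true_eq_false] at hc
      · split_ifs at hc with h
        · right; right; simp [lt, ← h]
        · exact absurd rfl hc
      · split_ifs at hc with h h2
        · right; right; simp [lt, ← h]
        · right; right; simp [lt, ← h]
        · exact absurd rfl hc
    | b c =>
      cases t <;> simp only [tabN, actB, ne_eq, not_true_eq_false] at hc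
      split_ifs at hc with h
      · right; right; simp [lt, ← h]
      · exact absurd rfl hc
    | f c => exact absurd rfl hc
    | s q =>
      simp only [tabN] at hc
      split_ifs at hc with h1 h2
      · left; rw [h1]
      · right; left; rw [h2]
      · exact absurd rfl hc
    | dead => exact absurd rfl hc
  refine (Set.encard_le_encard hsub).trans ?_
  refine (Set.encard_insert_le _ _).trans ?_
  refine (add_le_add_left (Set.encard_insert_le _ _) _).trans ?_
  rw [Set.encard_singleton]
  norm_num

/-- The list `c` contains all states except `q`. -/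
def Hole {S : Type} (q : S) (c : List S) : Prop := ∀ q', q' ∈ c ↔ q' ≠ q

theorem dead_rew {t : Tr m G.J} {x y : List (Sym G.V (St m G.J))}
    (h : Rew (tabN e G.tab (Set.range G.tm) t) x y) (hx : Sym.dead ∈ x) : Sym.dead ∈ y := by
  induction h with
  | nil => simp at hx
  | @cons c u x y hu _ ih =>
    rcases List.mem_cons.1 hx with h | h
    · subst h
      have hu' : u = [Sym.dead] := hu
      rw [hu']; simp
    · exact List.mem_append_right _ (ih h)

theorem dead_src {t : Tr m G.J} {x y : List (Sym G.V (St m G.J))}
    (h : Rew (tabN e G.tab (Set.range G.tm) t) x y) (hx : Sym.s (src t) ∈ x) : Sym.dead ∈ y := by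
  induction h with
  | nil => simp at hx
  | @cons c u x y hu _ ih =>
    rcases List.mem_cons.1 hx with h | h
    · subst h
      have hu' : u = [Sym.dead] := by
        simpa [tabN] using hu
      rw [hu']; simp
    · exact List.mem_append_right _ (ih h)

open Classical in
/-- The control part. -/
theorem ctrl_rew {t : Tr m G.J} {c : List (St m G.J)} {y : List (Sym G.V (St m G.J))}
    (hc : src t ∉ c) (h : Rew (tabN e G.tab (Set.range G.tm) t) (c.map .s) y) :
    y = c.flatMap (fun q => if q = dst t then out t else [.s q]) := by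
  classical
  induction c generalizing y with
  | nil => simpa using h.nil_inv
  | cons q c ih =>
    rw [List.map_cons] at h
    obtain ⟨u, y, hu, hy, rfl⟩ := h.cons_inv
    have h1 : src t ≠ q := fun h => hc (h ▸ List.mem_cons_self)
    have h2 : src t ∉ c := fun h => hc (List.mem_cons_of_mem _ h)
    rw [List.flatMap_cons, ← ih h2 hy]
    congr 1
    simp only [tabN, if_neg h1.symm] at hu
    split_ifs at hu ⊢ with h3
    · exact hu
    · exact hu

theorem rew_ctrl {t : Tr m G.J} {c : List (St m G.J)} (hc : src t ∉ c) :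
    Rew (tabN e G.tab (Set.range G.tm) t) (c.map .s)
      (c.flatMap (fun q => open Classical in if q = dst t then out t else [.s q])) := by
  classical
  induction c with
  | nil => exact Rew.nil
  | cons q c ih =>
    have h1 : src t ≠ q := fun h => hc (h ▸ List.mem_cons_self)
    have h2 : src t ∉ c := fun h => hc (List.mem_cons_of_mem _ h)
    rw [List.map_cons, List.flatMap_cons]
    refine Rew.cons ?_ (ih h2)
    simp only [tabN, if_neg h1.symm]
    split_ifs <;> simp

/-- A table which is not erasing. -/
def NE (t : Tr m G.J) : Prop := ∀ q, t ≠ .er q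

theorem out_ne {t : Tr m G.J} (h : NE t) : (out t : List (Sym G.V (St m G.J))) = [.s (src t)] := by
  cases t <;> first | rfl | exact absurd rfl (h _)

theorem src_ne_dst {t : Tr m G.J} (h : NE t) : src t ≠ dst t := by
  cases t with
  | er q => exact absurd rfl (h q)
  | pr j i =>
    simp only [src, dst, ne_eq, St.p.injEq, true_and]
    exact (Fin.castSucc_lt_succ).ne
  | un i =>
    simp only [src, dst, ne_eq, St.u.injEq]
    exact (Fin.castSucc_lt_succ).ne
  | zz i =>
    simp only [src, dst, ne_eq, St.z.injEq]
    exact (Fin.castSucc_lt_succ).ne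
  | _ => simp [src, dst]

/-- The new control word. -/
theorem ctrl_new {t : Tr m G.J} (hn : NE t) {c : List (St m G.J)} (hc : Hole (src t) c) :
    ∃ c', Hole (dst t) c' ∧
      c.flatMap (fun q => open Classical in
        if q = dst t then (out t : List (Sym G.V (St m G.J))) else [.s q]) = c'.map .s := by
  classical
  refine ⟨c.map (fun q => if q = dst t then src t else q), ?_, ?_⟩
  · intro q'
    have hsd := src_ne_dst hn
    rw [List.mem_map]
    constructor
    · rintro ⟨q, hq, rfl⟩
      split_ifs with h
      · exact hsd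
      · exact h
    · intro h
      by_cases h1 : q' = src t
      · exact ⟨dst t, (hc _).2 hsd.symm, by rw [if_pos rfl, h1]⟩
      · exact ⟨q', (hc _).2 h1, by rw [if_neg h]⟩
  · rw [out_ne hn]
    clear hc
    induction c with
    | nil => rfl
    | cons q c ih =>
      rw [List.flatMap_cons, ih, List.map_cons, List.map_cons]
      split_ifs <;> rfl

/-! ### The data words of the states -/

/-- Words which can be derived. -/
def Reach (G : Sys T) (u : List G.V) : Prop := Relation.ReflTransGen (Step G) G.ax u

open Classical in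
/-- Partially processed words. -/
noncomputable def ρ (e : G.V ≃ Fin m) (j : G.J) (i : Fin (m + 1)) (c : G.V) :
    Set (List (Sym G.V (St m G.J))) :=
  if (e c).castSucc < i then (List.map .b) '' G.tab j c else {[.a c]}

open Classical in
/-- Partially renamed words. -/
noncomputable def gu (e : G.V ≃ Fin m) (i : Fin (m + 1)) (c : G.V) : Sym G.V (St m G.J) :=
  if (e c).castSucc < i then .a c else .b c

open Classical in
/-- Partially finished words. -/
noncomputable def gz (e : G.V ≃ Fin m) (i : Fin (m + 1)) (c : G.V) : Sym G.V (St m G.J) :=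
  if (e c).castSucc < i then .f c else .a c

/-- The data words which belong to a state. -/
def Ph (e : G.V ≃ Fin m) : St m G.J → List (Sym G.V (St m G.J)) → Prop
  | .rd, d => ∃ u, Reach G u ∧ d = u.map .a
  | .p j i, d => ∃ u, Reach G u ∧ Rew (ρ e j i) u d
  | .u i, d => ∃ u, Reach G u ∧ d = u.map (gu e i)
  | .z i, d => ∃ u, Reach G u ∧ (∀ c ∈ u, (e c).castSucc < i → c ∈ Set.range G.tm) ∧
      d = u.map (gz e i)

theorem lt_last (c : G.V) : (e c).castSucc < Fin.last m := Fin.castSucc_lt_last _

theorem lt_succ_iff {c : G.V} {i : Fin m} :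
    (e c).castSucc < i.succ ↔ (e c).castSucc < i.castSucc ∨ e c = i := by
  rw [Fin.lt_def, Fin.lt_def, Fin.ext_iff]
  simp only [Fin.val_castSucc, Fin.val_succ]
  omega

theorem not_lt_castSucc {c : G.V} {i : Fin m} (h : e c = i) :
    ¬ (e c).castSucc < i.castSucc := by
  rw [h]; exact lt_irrefl _

theorem map_det {t : Tr m G.J} {u : List G.V} {g g' : G.V → Sym G.V (St m G.J)}
    (h : ∀ c ∈ u, tabN e G.tab (Set.range G.tm) t (g c) = {[g' c]})
    {y : List (Sym G.V (St m G.J))} :
    Rew (tabN e G.tab (Set.range G.tm) t) (u.map g) y ↔ y = u.map g' := by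
  induction u generalizing y with
  | nil =>
    constructor
    · intro h; simpa using h.nil_inv
    · rintro rfl; exact Rew.nil
  | cons c u ih =>
    have h1 := h c List.mem_cons_self
    have h2 : ∀ c ∈ u, _ := fun c' hc => h c' (List.mem_cons_of_mem _ hc)
    rw [List.map_cons, List.map_cons]
    constructor
    · intro hr
      obtain ⟨w, y, hw, hy, rfl⟩ := hr.cons_inv
      rw [h1, Set.mem_singleton_iff] at hw
      rw [hw, (ih h2).1 hy]
      rfl
    · rintro rfl
      have := Rew.cons (σ := tabN e G.tab (Set.range G.tm) t) (c := g c) (u := [g' c])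
        (by rw [h1]; exact Set.mem_singleton _) ((ih h2).2 rfl)
      simpa using this


theorem rew_map {A B : Type} {σ : A → Set (List B)} {u : List A} {g : A → B}
    (h : ∀ c ∈ u, [g c] ∈ σ c) : Rew σ u (u.map g) := by
  induction u with
  | nil => exact Rew.nil
  | cons c u ih =>
    have := Rew.cons (h c List.mem_cons_self) (ih fun c' hc => h c' (List.mem_cons_of_mem _ hc))
    simpa using this

theorem mem_dead {t : Tr m G.J} {u : List G.V} {g : G.V → Sym G.V (St m G.J)} {c : G.V}
    (hc : c ∈ u) (h : tabN e G.tab (Set.range G.tm) t (g c) = {[.dead]})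
    {y : List (Sym G.V (St m G.J))}
    (hr : Rew (tabN e G.tab (Set.range G.tm) t) (u.map g) y) : Sym.dead ∈ y := by
  induction u generalizing y with
  | nil => simp at hc
  | cons c' u ih =>
    rw [List.map_cons] at hr
    obtain ⟨w, y, hw, hy, rfl⟩ := hr.cons_inv
    rcases List.mem_cons.1 hc with h1 | h1
    · subst h1
      rw [h, Set.mem_singleton_iff] at hw
      rw [hw]; simp
    · exact List.mem_append_right _ (ih h1 hy)

theorem gu_last (c : G.V) : gu e (Fin.last m) c = (.a c : Sym G.V (St m G.J)) :=
  if_pos (lt_last c)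

theorem gu_zero (c : G.V) : gu e 0 c = (.b c : Sym G.V (St m G.J)) :=
  if_neg (by simp)

theorem gz_zero (c : G.V) : gz e 0 c = (.a c : Sym G.V (St m G.J)) :=
  if_neg (by simp)

theorem gz_last (c : G.V) : gz e (Fin.last m) c = (.f c : Sym G.V (St m G.J)) :=
  if_pos (lt_last c)

theorem rho_last {j : G.J} {u : List G.V} {d : List (Sym G.V (St m G.J))}
    (h : Rew (ρ e j (Fin.last m)) u d) : ∃ u', Rew (G.tab j) u u' ∧ d = u'.map .b := by
  induction h with
  | nil => exact ⟨[], Rew.nil, rfl⟩
  | @cons c w x y hw _ ih =>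
    obtain ⟨u', h1, rfl⟩ := ih
    rw [ρ, if_pos (lt_last c)] at hw
    obtain ⟨v, hv, rfl⟩ := hw
    exact ⟨v ++ u', Rew.cons hv h1, by rw [List.map_append]⟩

theorem gu_step (i : Fin m) (c : G.V) :
    tabN e G.tab (Set.range G.tm) (.un i) (gu e i.castSucc c) = {[gu e i.succ c]} := by
  unfold gu
  by_cases h1 : (e c).castSucc < i.castSucc
  · rw [if_pos h1, if_pos (lt_succ_iff.2 (Or.inl h1))]
    rfl
  · rw [if_neg h1]
    by_cases h2 : e c = i
    · rw [if_pos (lt_succ_iff.2 (Or.inr h2))]
      simp [tabN, actB, h2]
    · rw [if_neg (fun h => (lt_succ_iff.1 h).elim h1 h2)]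
      simp [tabN, actB, h2]

theorem gz_step {i : Fin m} {c : G.V} (hc : e c = i → c ∈ Set.range G.tm) :
    tabN e G.tab (Set.range G.tm) (.zz i) (gz e i.castSucc c) = {[gz e i.succ c]} := by
  unfold gz
  by_cases h1 : (e c).castSucc < i.castSucc
  · rw [if_pos h1, if_pos (lt_succ_iff.2 (Or.inl h1))]
    rfl
  · rw [if_neg h1]
    by_cases h2 : e c = i
    · rw [if_pos (lt_succ_iff.2 (Or.inr h2))]
      simp only [tabN, actA]
      rw [if_pos h2, if_pos (hc h2)]
    · rw [if_neg (fun h => (lt_succ_iff.1 h).elim h1 h2)]
      simp only [tabN, actA]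
      rw [if_neg h2]

/-- Soundness for the data words. -/
theorem ph_step {t : Tr m G.J} (hn : NE t) {d d' : List (Sym G.V (St m G.J))}
    (h : Ph e (src t) d) (hr : Rew (tabN e G.tab (Set.range G.tm) t) d d') :
    Sym.dead ∈ d' ∨ Ph e (dst t) d' := by
  cases t with
  | er q => exact absurd rfl (hn q)
  | start j =>
    obtain ⟨u, hu, rfl⟩ := h
    have : d' = u.map .a := (map_det (g := .a) (g' := .a) (fun _ _ => rfl)).1 hr
    subst this
    exact Or.inr ⟨u, hu, rew_map fun c _ => by simp [ρ]⟩
  | pr j i =>
    obtain ⟨u, hu, h1⟩ := h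
    refine Or.inr ⟨u, hu, h1.comp hr ?_⟩
    intro c _ w hw w' hw'
    unfold ρ at hw ⊢
    by_cases h1 : (e c).castSucc < i.castSucc
    · rw [if_pos h1] at hw
      rw [if_pos (lt_succ_iff.2 (Or.inl h1))]
      obtain ⟨v, hv, rfl⟩ := hw
      have := (map_det (g := .b) (g' := .b) (fun _ _ => rfl)).1 hw'
      exact ⟨v, hv, this.symm⟩
    · rw [if_neg h1, Set.mem_singleton_iff] at hw
      subst hw
      have h3 := hw'.single
      simp only [tabN, actA] at h3
      by_cases h2 : e c = i
      · rw [if_pos (lt_succ_iff.2 (Or.inr h2))]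
        rwa [if_pos h2] at h3
      · rw [if_neg (fun h => (lt_succ_iff.1 h).elim h1 h2)]
        rwa [if_neg h2] at h3
  | sw j =>
    obtain ⟨u, hu, h1⟩ := h
    obtain ⟨u', h2, rfl⟩ := rho_last h1
    have : d' = u'.map .b := (map_det (g := .b) (g' := .b) (fun _ _ => rfl)).1 hr
    subst this
    exact Or.inr ⟨u', hu.tail ⟨j, h2⟩, List.map_congr_left fun c _ => (gu_zero c).symm⟩
  | un i =>
    obtain ⟨u, hu, rfl⟩ := h
    exact Or.inr ⟨u, hu, (map_det fun c _ => gu_step i c).1 hr⟩
  | back =>
    obtain ⟨u, hu, rfl⟩ := h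
    refine Or.inr ⟨u, hu, (map_det fun c _ => ?_).1 hr⟩
    rw [gu_last]
    rfl
  | fin0 =>
    obtain ⟨u, hu, rfl⟩ := h
    refine Or.inr ⟨u, hu, fun c _ h => absurd h (by simp), (map_det fun c _ => ?_).1 hr⟩
    rw [gz_zero]
    rfl
  | zz i =>
    obtain ⟨u, hu, h1, rfl⟩ := h
    by_cases hh : ∀ c ∈ u, e c = i → c ∈ Set.range G.tm
    · refine Or.inr ⟨u, hu, ?_, (map_det fun c hc => gz_step (hh c hc)).1 hr⟩
      intro c hc hlt
      rcases lt_succ_iff.1 hlt with h2 | h2
      · exact h1 c hc h2
      · exact hh c hc h2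
    · push Not at hh
      obtain ⟨c, hc, h2, h3⟩ := hh
      refine Or.inl (mem_dead hc ?_ hr)
      unfold gz
      rw [if_neg (not_lt_castSucc h2)]
      simp only [tabN, actA]
      rw [if_pos h2, if_neg h3]

/-- The final phase: only final letters, control letters and dead letters. -/
def getF {V S : Type} : Sym V S → Option V
  | .f c => some c
  | _ => none

/-- Letters of the final phase. -/
def Late {V S : Type} : Sym V S → Prop
  | .a _ => False
  | .b _ => False
  | _ => True

/-- The invariant of the final phase. -/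
def FinInv (x : List (Sym G.V (St m G.J))) : Prop :=
  (∀ c ∈ x, Late c) ∧ ∃ w ∈ lang G, x.filterMap getF = w.map G.tm

theorem late_step {t : Tr m G.J} {x y : List (Sym G.V (St m G.J))}
    (h : Rew (tabN e G.tab (Set.range G.tm) t) x y) (hx : ∀ c ∈ x, Late c) :
    (∀ c ∈ y, Late c) ∧ y.filterMap getF = x.filterMap getF := by
  induction h with
  | nil => exact ⟨by simp, rfl⟩
  | @cons c u x y hu _ ih =>
    obtain ⟨h1, h2⟩ := ih fun c hc => hx c (List.mem_cons_of_mem _ hc)
    have h3 : (∀ c ∈ u, Late c) ∧ u.filterMap getF = [c].filterMap getF := by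
      cases c with
      | a c => exact absurd (hx _ List.mem_cons_self) (by simp [Late])
      | b c => exact absurd (hx _ List.mem_cons_self) (by simp [Late])
      | f c =>
        have : u = [.f c] := hu
        subst this
        exact ⟨by simp [Late], rfl⟩
      | s q =>
        simp only [tabN] at hu
        split_ifs at hu
        · have : u = [.dead] := hu
          subst this
          exact ⟨by simp [Late], rfl⟩
        · have : u = out t := hu
          subst this
          cases t <;> exact ⟨by simp [Late, out], rfl⟩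
        · have : u = [.s q] := hu
          subst this
          exact ⟨by simp [Late], rfl⟩
      | dead =>
        have : u = [.dead] := hu
        subst this
        exact ⟨by simp [Late], rfl⟩
    constructor
    · intro c' hc'
      rcases List.mem_append.1 hc' with h | h
      · exact h3.1 c' h
      · exact h1 c' h
    · rw [List.filterMap_append, h3.2, h2, ← List.filterMap_append]
      rfl

theorem finInv_step {t : Tr m G.J} {x y : List (Sym G.V (St m G.J))}
    (h : Rew (tabN e G.tab (Set.range G.tm) t) x y) (hx : FinInv x) : FinInv y := by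
  obtain ⟨h1, w, hw, h2⟩ := hx
  obtain ⟨h3, h4⟩ := late_step h h1
  exact ⟨h3, w, hw, h4.trans h2⟩

/-- One step of the new system. -/
def NS (e : G.V ≃ Fin m) (x y : List (Sym G.V (St m G.J))) : Prop :=
  ∃ t, Rew (tabN e G.tab (Set.range G.tm) t) x y

/-- The new axiom. -/
noncomputable def axN (G : Sys T) (m : ℕ) : List (Sym G.V (St m G.J)) :=
  (exists_ctrl (S := St m G.J) .rd).choose.map .s ++ G.ax.map .a

theorem mem_lang_new {w : List T} : w ∈ lang (new G m e) ↔
    Relation.ReflTransGen (NS e) (axN G m) (w.map fun t => (Sym.f (G.tm t))) := Iff.rfl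

/-- The words of the live phase. -/
def Live (e : G.V ≃ Fin m) (x : List (Sym G.V (St m G.J))) : Prop :=
  ∃ q c d, Hole q c ∧ x = c.map .s ++ d ∧ Ph e q d

theorem range_map {u : List G.V} (h : ∀ c ∈ u, c ∈ Set.range G.tm) :
    ∃ w : List T, u = w.map G.tm := by
  induction u with
  | nil => exact ⟨[], rfl⟩
  | cons c u ih =>
    obtain ⟨w, rfl⟩ := ih fun c hc => h c (List.mem_cons_of_mem _ hc)
    obtain ⟨t, rfl⟩ := h c List.mem_cons_self
    exact ⟨t :: w, rfl⟩

theorem finInv_of_last {c : List (St m G.J)} {d : List (Sym G.V (St m G.J))}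
    (h : Ph e (.z (Fin.last m)) d) : FinInv (c.map .s ++ d) := by
  obtain ⟨u, hu, h1, rfl⟩ := h
  obtain ⟨w, rfl⟩ := range_map fun c hc => h1 c hc (lt_last c)
  constructor
  · intro x hx
    rcases List.mem_append.1 hx with h | h
    · obtain ⟨q, _, rfl⟩ := List.mem_map.1 h
      trivial
    · obtain ⟨q, _, rfl⟩ := List.mem_map.1 h
      rw [gz_last]
      trivial
  · refine ⟨w, hu, ?_⟩
    rw [List.filterMap_append]
    have h2 : (c.map (Sym.s (V := G.V))).filterMap getF = [] := by
      rw [List.filterMap_map]
      exact List.filterMap_eq_nil_iff.2 fun _ _ => rfl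
    rw [h2, List.nil_append, List.filterMap_map]
    have h3 : (getF ∘ gz e (Fin.last m)) = fun c => some c := by
      funext c
      rw [Function.comp_apply, gz_last]
      rfl
    rw [h3, List.filterMap_some]

theorem inv_step {t : Tr m G.J} {x y : List (Sym G.V (St m G.J))}
    (h : Rew (tabN e G.tab (Set.range G.tm) t) x y)
    (hx : Sym.dead ∈ x ∨ Live e x ∨ FinInv x) : Sym.dead ∈ y ∨ Live e y ∨ FinInv y := by
  rcases hx with hx | hx | hx
  · exact Or.inl (dead_rew h hx)
  · obtain ⟨q, c, d, hc, rfl, hd⟩ := hx
    by_cases hq : q = .z (Fin.last m)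
    · subst hq
      exact Or.inr (Or.inr (finInv_step h (finInv_of_last hd)))
    · by_cases hs : src t = q
      · subst hs
        have hn : NE t := by
          rintro q' rfl
          exact hq rfl
        obtain ⟨y1, y2, h1, h2, rfl⟩ := h.split
        have hnc : src t ∉ c := fun h => (hc _).1 h rfl
        obtain ⟨c', hc', h3⟩ := ctrl_new hn hc
        have h4 := ctrl_rew hnc h1
        rw [h3] at h4
        subst h4
        rcases ph_step hn hd h2 with h5 | h5
        · exact Or.inl (List.mem_append_right _ h5)
        · exact Or.inr (Or.inl ⟨_, c', y2, hc', rfl, h5⟩)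
      · refine Or.inl (dead_src h ?_)
        exact List.mem_append_left _ (List.mem_map.2 ⟨_, (hc _).2 hs, rfl⟩)
  · exact Or.inr (Or.inr (finInv_step h hx))

theorem inv_reach {y : List (Sym G.V (St m G.J))}
    (h : Relation.ReflTransGen (NS e) (axN G m) y) :
    Sym.dead ∈ y ∨ Live e y ∨ FinInv y := by
  induction h with
  | refl =>
    refine Or.inr (Or.inl ⟨.rd, _, _, (exists_ctrl _).choose_spec, rfl, G.ax, ?_, rfl⟩)
    exact Relation.ReflTransGen.refl
  | tail _ hs ih =>
    obtain ⟨t, ht⟩ := hs
    exact inv_step ht ih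

theorem sound {w : List T} (h : w ∈ lang (new G m e)) : w ∈ lang G := by
  have h1 : Relation.ReflTransGen (NS e) (axN G m)
      (w.map fun t => (Sym.f (G.tm t) : Sym G.V (St m G.J))) := h
  rcases inv_reach h1 with h2 | h2 | h2
  · simp at h2
  · obtain ⟨q, c, d, hc, h3, -⟩ := h2
    exfalso
    obtain ⟨q', hq'⟩ : ∃ q' : St m G.J, q' ≠ q := by
      by_cases h : q = .rd
      · exact ⟨.u 0, by rw [h]; simp⟩
      · exact ⟨.rd, fun h' => h h'.symm⟩
    have h4 : (Sym.s q' : Sym G.V (St m G.J)) ∈ w.map fun t => (Sym.f (G.tm t) :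
        Sym G.V (St m G.J)) := by
      rw [h3]
      exact List.mem_append_left _ (List.mem_map.2 ⟨_, (hc _).2 hq', rfl⟩)
    simp at h4
  · obtain ⟨-, w', hw', h3⟩ := h2
    rw [List.filterMap_map] at h3
    have h4 : (getF ∘ fun t => (Sym.f (G.tm t) : Sym G.V (St m G.J))) =
        fun t => some (G.tm t) := rfl
    rw [h4] at h3
    have h5 : w.filterMap (fun t => some (G.tm t)) = w.map G.tm := by
      induction w with
      | nil => rfl
      | cons a w ih => simp
    rw [h5] at h3
    rw [(List.map_injective_iff.2 G.tm_inj) h3]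
    exact hw'

/-! ### Completeness -/

/-- The state `q` with data word `d` can be reached. -/
def At (e : G.V ≃ Fin m) (q : St m G.J) (d : List (Sym G.V (St m G.J))) : Prop :=
  ∃ c : List (St m G.J), Hole q c ∧
    Relation.ReflTransGen (NS e) (axN G m) (c.map .s ++ d)

theorem At.congr {q q' : St m G.J} {d d' : List (Sym G.V (St m G.J))} (h : At e q d)
    (hq : q = q') (hd : d = d') : At e q' d' := by
  subst hq; subst hd; exact h

theorem at_step {t : Tr m G.J} (hn : NE t) {d d' : List (Sym G.V (St m G.J))}
    (h : At e (src t) d) (hr : Rew (tabN e G.tab (Set.range G.tm) t) d d') :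
    At e (dst t) d' := by
  obtain ⟨c, hc, h1⟩ := h
  obtain ⟨c', hc', h2⟩ := ctrl_new hn hc
  refine ⟨c', hc', h1.tail ⟨t, ?_⟩⟩
  have h3 := rew_ctrl (e := e) (t := t) (c := c) fun h => (hc _).1 h rfl
  rw [h2] at h3
  exact h3.append hr

theorem at_start : At e .rd (G.ax.map .a) :=
  ⟨_, (exists_ctrl _).choose_spec, Relation.ReflTransGen.refl⟩

open Classical in
theorem at_table {j : G.J} {u u' : List G.V} (h : At e .rd (u.map .a))
    (hr : Rew (G.tab j) u u') : At e .rd (u'.map .a) := by
  obtain ⟨L, hL, h1, h2⟩ := hr.pairs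
  have key : ∀ k : ℕ, ∀ hk : k < m + 1, At e (.p j ⟨k, hk⟩)
      (L.flatMap fun p => if (e p.1).castSucc < (⟨k, hk⟩ : Fin (m + 1)) then
        p.2.map .b else [.a p.1]) := by
    intro k
    induction k with
    | zero =>
      intro hk
      have := at_step (t := .start j) (fun q => by simp) h (d' := u.map .a)
        ((map_det (g := .a) (g' := .a) (fun _ _ => rfl)).2 rfl)
      refine this.congr rfl ?_
      rw [h1, List.map_flatMap]
      refine List.flatMap_congr fun p _ => ?_
      rw [if_neg (by simp [Fin.lt_def])]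
      rfl
    | succ k ih =>
      intro hk
      have hk' : k < m := by omega
      refine at_step (t := .pr j ⟨k, hk'⟩) (fun q => by simp) (ih (by omega)) ?_
      refine Rew.flatMap fun p hp => ?_
      have e1 : ((e p.1).castSucc < (⟨k + 1, hk⟩ : Fin (m + 1))) ↔
          ((e p.1).castSucc < (⟨k, by omega⟩ : Fin (m + 1))) ∨ e p.1 = ⟨k, hk'⟩ := by
        rw [Fin.lt_def, Fin.lt_def, Fin.ext_iff]
        simp only [Fin.val_castSucc]
        omega
      by_cases h3 : (e p.1).castSucc < (⟨k, by omega⟩ : Fin (m + 1))
      · rw [if_pos h3, if_pos (e1.2 (Or.inl h3))]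
        exact (map_det (g := .b) (g' := .b) (fun _ _ => rfl)).2 rfl
      · rw [if_neg h3]
        by_cases h4 : e p.1 = ⟨k, hk'⟩
        · rw [if_pos (e1.2 (Or.inr h4))]
          refine Rew.one ?_
          simp only [tabN, actA]
          rw [if_pos h4]
          exact ⟨_, hL p hp, rfl⟩
        · rw [if_neg (fun h => (e1.1 h).elim h3 h4)]
          refine Rew.one ?_
          simp only [tabN, actA]
          rw [if_neg h4]
          rfl
  have h3 := key m (by omega)
  have h4 : (L.flatMap fun p => if (e p.1).castSucc < (⟨m, by omega⟩ : Fin (m + 1)) then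
        p.2.map .b else [.a p.1]) = u'.map (Sym.b (S := St m G.J)) := by
    rw [h2, List.map_flatMap]
    refine List.flatMap_congr fun p _ => ?_
    exact if_pos (lt_last p.1)
  rw [h4] at h3
  have h5 : At e (.u 0) (u'.map (Sym.b (S := St m G.J))) :=
    at_step (t := .sw j) (fun q => by simp) h3
      ((map_det (g := .b) (g' := .b) (fun _ _ => rfl)).2 rfl)
  have key2 : ∀ k : ℕ, ∀ hk : k < m + 1, At e (.u ⟨k, hk⟩) (u'.map (gu e ⟨k, hk⟩)) := by
    intro k
    induction k with
    | zero =>
      intro hk
      exact h5.congr rfl (List.map_congr_left fun c _ => (gu_zero c).symm)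
    | succ k ih =>
      intro hk
      exact at_step (t := .un ⟨k, by omega⟩) (fun q => by simp) (ih (by omega))
        ((map_det fun c _ => gu_step _ c).2 rfl)
  have h6 := key2 m (by omega)
  refine at_step (t := .back) (fun q => by simp) h6 ((map_det fun c _ => ?_).2 rfl)
  have : gu e (⟨m, by omega⟩ : Fin (m + 1)) c = (.a c : Sym G.V (St m G.J)) := gu_last c
  rw [this]
  rfl

theorem at_final {w : List T} (h : At e .rd ((w.map G.tm).map .a)) :
    At e (.z (Fin.last m)) ((w.map G.tm).map .f) := by
  have h0 : At e (.z 0) ((w.map G.tm).map (Sym.a (S := St m G.J))) :=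
    at_step (t := .fin0) (fun q => by simp) h
      ((map_det (g := .a) (g' := .a) (fun _ _ => rfl)).2 rfl)
  have key : ∀ k : ℕ, ∀ hk : k < m + 1,
      At e (.z ⟨k, hk⟩) ((w.map G.tm).map (gz e ⟨k, hk⟩)) := by
    intro k
    induction k with
    | zero =>
      intro hk
      exact h0.congr rfl (List.map_congr_left fun c _ => (gz_zero c).symm)
    | succ k ih =>
      intro hk
      refine at_step (t := .zz ⟨k, by omega⟩) (fun q => by simp) (ih (by omega))
        ((map_det fun c hc => gz_step fun _ => ?_).2 rfl)
      obtain ⟨t, _, rfl⟩ := List.mem_map.1 hc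
      exact ⟨t, rfl⟩
  have h1 := key m (by omega)
  exact h1.congr rfl (List.map_congr_left fun c _ => gz_last c)

theorem erase_all (d : List G.V) : ∀ (n : ℕ) (c : List (St m G.J)), c.length ≤ n →
    St.z (Fin.last m) ∉ c →
    Relation.ReflTransGen (NS e) (c.map .s ++ d.map .f) (d.map Sym.f) := by
  classical
  intro n
  induction n with
  | zero =>
    intro c hc _
    have : c = [] := List.length_eq_zero_iff.1 (by omega)
    subst this
    exact Relation.ReflTransGen.refl
  | succ n ih =>
    intro c hc hz
    cases c with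
    | nil => exact Relation.ReflTransGen.refl
    | cons q c =>
      have hstep : NS e ((q :: c).map Sym.s ++ d.map Sym.f)
          ((c.filter (fun q' => q' ≠ q)).map Sym.s ++ d.map Sym.f) := by
        refine ⟨.er q, ?_⟩
        refine Rew.append (σ := tabN e G.tab (Set.range G.tm) (.er q)) ?_
          ((map_det (g := .f) (g' := .f) (fun _ _ => rfl)).2 rfl)
        have h1 := rew_ctrl (e := e) (t := .er q) (c := q :: c) hz
        convert h1 using 1
        rw [List.flatMap_cons, if_pos (show q = dst (Tr.er q) from rfl)]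
        simp only [out, List.nil_append]
        clear h1 hz ih hc
        induction c with
        | nil => rfl
        | cons q' c ih =>
          rw [List.flatMap_cons, ← ih]
          by_cases h : q' = q
          · subst h
            simp [dst]
          · rw [List.filter_cons_of_pos (by simpa using h), List.map_cons,
              if_neg (by simpa [dst] using h)]
            rfl
      refine Relation.ReflTransGen.head hstep (ih _ ?_ ?_)
      · have := List.length_filter_le (fun q' => decide (q' ≠ q)) c
        simp only [List.length_cons] at hc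
        omega
      · intro h
        exact hz (List.mem_cons_of_mem _ (List.mem_filter.1 h).1)

theorem complete {w : List T} (h : w ∈ lang G) : w ∈ lang (new G m e) := by
  have h1 : ∀ u, Reach G u → At e .rd (u.map .a) := by
    intro u hu
    induction hu with
    | refl => exact at_start
    | tail _ hs ih =>
      obtain ⟨j, hj⟩ := hs
      exact at_table ih hj
  obtain ⟨c, hc, h2⟩ := at_final (h1 _ h)
  have h3 := h2.trans (erase_all (e := e) (w.map G.tm) _ c le_rfl fun h => (hc _).1 h rfl)
  rw [List.map_map] at h3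
  exact h3

/-- Every ET0L language is generated by a 3-restricted ET0L system. -/
theorem lang_mem_fam3 (G : Sys T) : lang G ∈ Fam T 3 := by
  have := G.finV
  refine ⟨new G (Nat.card G.V) (Finite.equivFin G.V), restricted3, ?_⟩
  exact Set.Subset.antisymm (fun w hw => complete hw) (fun w hw => sound hw)

theorem fam_mono {k l : ℕ} (h : k ≤ l) : Fam T k ⊆ Fam T l := by
  rintro L ⟨G, hG, rfl⟩
  exact ⟨G, fun j => (hG j).trans (by exact_mod_cast h), rfl⟩

theorem main (k : ℕ) (hk : 3 ≤ k) : Fam T k = Fam T (k + 1) := by
  refine Set.Subset.antisymm (fam_mono (Nat.le_succ k)) ?_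
  rintro L ⟨G, _, rfl⟩
  exact fam_mono hk (lang_mem_fam3 G)

end Pool.Agent.TH269.ET
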